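import Pool.Agent.Helper60.T3.Defs

/-!
# Project T3 (MP_a41896_nt), packet ULT: the sequence and the ultrafilter
-/

set_option autoImplicit false

open MvPolynomial

namespace Pool.Agent.Helper12.T3.ULT

open Filter
open Pool.Agent.Helper29.BL (IsQuad)

theorem countable_field (K : Type) [Field K] [NumberField K] : Countable K :=
  (Module.finBasis ℚ K).equivFun.toEquiv.injective.countable

theorem countable_poly (K : Type) [Field K] [NumberField K] (σ : Type) [Fintype σ] :
    Countable (MvPolynomial σ K) := by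
  haveI := countable_field K
  have hinj : Function.Injective (fun (p : MvPolynomial σ K) =>
      (⟨p.support, fun m => if m ∈ p.support then coeff m p else 0, fun m => by
        by_cases hm : m ∈ p.support
        · simp [hm, mem_support_iff.1 hm]
        · simp [hm]⟩ : (σ →₀ ℕ) →₀ K)) := by
    intro p q hpq
    ext m
    have h := DFunLike.congr_fun hpq m
    simp only [Finsupp.coe_mk] at h
    by_cases hp : m ∈ p.support <;> by_cases hq : m ∈ q.support
    · simpa [hp, hq] using h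
    · rw [if_pos hp, if_neg hq] at h
      rw [h, notMem_support_iff.1 hq]
    · rw [if_neg hp, if_pos hq] at h
      rw [← h, notMem_support_iff.1 hp]
    · rw [notMem_support_iff.1 hp, notMem_support_iff.1 hq]
  exact hinj.countable

theorem extr (U : Ultrafilter ℕ) (P : ℕ → Prop) (Q : ℕ → ℕ → Prop)
    (hP : ∀ᶠ i in (U : Filter ℕ), P i)
    (hQ : ∀ᶠ i in (U : Filter ℕ), ∀ᶠ j in (U : Filter ℕ), Q i j) (n : ℕ) :
    ∃ g : ℕ → ℕ, (∀ a ≤ n, P (g a) ∧ ∀ᶠ j in (U : Filter ℕ), Q (g a) j) ∧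
      ∀ a b, a < b → b ≤ n → Q (g a) (g b) := by
  induction n with
  | zero =>
    obtain ⟨i, hi⟩ := (hP.and hQ).exists
    exact ⟨fun _ => i, fun a _ => hi, fun a b hab hb => by omega⟩
  | succ n ih =>
    obtain ⟨g, hg, hg2⟩ := ih
    have h1 : ∀ᶠ j in (U : Filter ℕ), ∀ a ∈ Finset.range (n + 1), Q (g a) j := by
      rw [Filter.eventually_all_finset]
      intro a ha
      exact (hg a (by rw [Finset.mem_range] at ha; omega)).2
    obtain ⟨j, hj, hj2⟩ := ((hP.and hQ).and h1).exists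
    refine ⟨fun a => if a ≤ n then g a else j, fun a ha => ?_, fun a b hab hb => ?_⟩
    · by_cases h : a ≤ n
      · simpa [h] using hg a h
      · simpa [h] using hj
    · have ha : a ≤ n := by omega
      by_cases h : b ≤ n
      · simpa [ha, h] using hg2 a b hab h
      · simpa [ha, h] using hj2 a (by rw [Finset.mem_range]; omega)

theorem t (hcls : Pool.Agent.Helper42.SG.CLS) : Pool.Agent.Helper60.T3.S_ULT := by
  classical
  intro K _ _ σ _ G _ Γ hΓ H hH X Ex hyp
  haveI := countable_poly K σ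
  obtain ⟨P, hP⟩ := exists_surjective_nat (MvPolynomial σ K)
  have hZ : ∀ k : ℕ, (∏ i ∈ Finset.range (k + 1), (if P i = 0 then 1 else P i)) ≠ 0 := by
    intro k
    rw [Finset.prod_ne_zero_iff]
    intro i _
    by_cases h : P i = 0
    · rw [if_pos h]; exact one_ne_zero
    · rw [if_neg h]; exact h
  have hch := fun k : ℕ => hyp _ (k : ℝ) (hZ k)
  choose y hyΓ hyE hyZ hyH using hch
  have htop : ((hyperfilter ℕ : Ultrafilter ℕ) : Filter ℕ) ≤ atTop := Nat.hyperfilter_le_atTop
  have hgen : ∀ Z : MvPolynomial σ K, Z ≠ 0 →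
      ∀ᶠ k in ((hyperfilter ℕ : Ultrafilter ℕ) : Filter ℕ), eval (X (y k)) Z ≠ 0 := by
    intro Z hZ0
    obtain ⟨i, rfl⟩ := hP Z
    filter_upwards [(eventually_ge_atTop i).filter_mono htop] with k hk
    intro h0
    apply hyZ k
    rw [map_prod]
    refine Finset.prod_eq_zero (Finset.mem_range.2 (by omega : i < k + 1)) ?_
    rw [if_neg hZ0]
    exact h0
  have hbig : ∀ R : ℝ, ∀ᶠ k in ((hyperfilter ℕ : Ultrafilter ℕ) : Filter ℕ), R ≤ H (y k) := by
    intro R
    obtain ⟨m, hm⟩ := exists_nat_ge R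
    filter_upwards [(eventually_ge_atTop m).filter_mono htop] with k hk
    exact (hm.trans (by exact_mod_cast hk)).trans (hyH k)
  refine ⟨y, hyperfilter ℕ, fun k => ⟨hyΓ k, hyE k⟩, hgen, hbig, fun θ K0 hθ => ?_⟩
  by_contra hcon
  have h1 : ∀ᶠ i in ((hyperfilter ℕ : Ultrafilter ℕ) : Filter ℕ),
      ∀ᶠ j in ((hyperfilter ℕ : Ultrafilter ℕ) : Filter ℕ),
        ¬ (K0 * H (y i) ≤ H (y j) ∧ ∃ e : ℕ, H ((2 ^ e) • y i - y j) ≤ θ ^ 2 * H (y j)) := by
    rw [← Ultrafilter.eventually_not] at hcon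
    filter_upwards [hcon] with i hi
    exact Ultrafilter.eventually_not.2 hi
  have h2 : ∀ᶠ i in ((hyperfilter ℕ : Ultrafilter ℕ) : Filter ℕ),
      ∀ᶠ j in ((hyperfilter ℕ : Ultrafilter ℕ) : Filter ℕ),
        H (y i) ≤ H (y j) ∧ ¬ ∃ e : ℕ, H ((2 ^ e) • y i - y j) ≤ θ ^ 2 * H (y j) := by
    filter_upwards [h1] with i hi
    filter_upwards [hi, hbig (K0 * H (y i)), hbig (H (y i))] with j hj h3 h4
    exact ⟨h4, fun he => hj ⟨h3, he⟩⟩
  obtain ⟨N, hN⟩ := hcls G Γ hΓ H hH θ hθ
  obtain ⟨g, hg, hg2⟩ := extr _ (fun i => 1 ≤ H (y i)) _ (hbig 1) h2 N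
  obtain ⟨f, hf⟩ := hN N (fun a => y (g (min a N))) (fun a => hyΓ _)
    (by
      have := (hg (min 0 N) (by omega)).1
      exact lt_of_lt_of_le one_pos this)
    (fun i => by
      rcases lt_or_ge i N with h | h
      · rw [min_eq_left h.le, min_eq_left (by omega : i + 1 ≤ N)]
        exact (hg2 i (i + 1) (by omega) (by omega)).1
      · rw [min_eq_right h, min_eq_right (by omega : N ≤ i + 1)])
  obtain ⟨a, b, hab, hfab⟩ := Fintype.exists_ne_map_eq_of_card_lt
    (fun a : Fin (N + 1) => f a) (by simp)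
  have key : ∀ a b : Fin (N + 1), a < b → f a = f b → False := by
    intro a b hab hfab
    obtain ⟨e, he⟩ := hf a b hab (by omega) hfab
    rw [min_eq_left (by omega), min_eq_left (by omega)] at he
    exact (hg2 a b hab (by omega)).2 ⟨e, he⟩
  rcases lt_or_gt_of_ne hab with h | h
  · exact key a b h hfab
  · exact key b a h hfab.symm

end Pool.Agent.Helper12.T3.ULT
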